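import Pool.Agent.Helper38.RS.Goals3

/-!
# Packet UNI of project RS (MP_fc6b1e_nt): reduction by units
-/

set_option autoImplicit false

namespace Pool.Agent.Helper69.RS

open NumberField NumberField.InfinitePlace NumberField.mixedEmbedding
open NumberField.mixedEmbedding.fundamentalCone Pool.Agent.Helper38.RS Module Bornology

open scoped Classical in
theorem house_le {F : Type} [Field F] [NumberField F] (β : F) :
    house β ≤ ‖mixedEmbedding F β‖ := by
  classical
  have h : ‖canonicalEmbedding F β‖ ≤ ‖mixedEmbedding F β‖ := by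
    rw [pi_norm_le_iff_of_nonneg (norm_nonneg _)]
    intro φ
    have h1 : ‖canonicalEmbedding F β φ‖ = normAtPlace (InfinitePlace.mk φ) (mixedEmbedding F β) := by
      rw [normAtPlace_apply]
      rfl
    rw [h1, norm_eq_sup'_normAtPlace]
    exact Finset.le_sup' (fun w => normAtPlace w (mixedEmbedding F β)) (Finset.mem_univ _)
  exact h

theorem s_uni : S_UNI := by
  classical
  intro F _ _
  obtain ⟨B, hB⟩ := isBounded_iff_forall_norm_le.mp (isBounded_normLeOne F)
  set n := finrank ℚ F with hn
  have hn0 : n ≠ 0 := (finrank_pos).ne'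
  set D : ℝ := max B 1 with hD
  have hD1 : 1 ≤ D := le_max_right _ _
  refine ⟨D ^ n, by positivity, ?_⟩
  intro α hα
  set x := mixedEmbedding F α with hx
  have hN : mixedEmbedding.norm x = absN α := by
    rw [hx, norm_eq_norm]
    unfold absN
    push_cast
    rfl
  have hNpos : 0 < absN α := by
    unfold absN
    rw [abs_pos]
    have : Algebra.norm ℚ α ≠ 0 := by
      rw [Ne, Algebra.norm_eq_zero_iff]
      exact hα
    exact_mod_cast this
  obtain ⟨u, hu⟩ := exists_unit_smul_mem (K := F) (x := x) (by rw [hN]; exact hNpos.ne')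
  refine ⟨u, ?_⟩
  set t : ℝ := (absN α)⁻¹ ^ ((n : ℝ)⁻¹) with ht
  have htpos : 0 < t := Real.rpow_pos_of_pos (inv_pos.mpr hNpos) _
  have htn : t ^ n = (absN α)⁻¹ := by
    rw [ht]
    exact Real.rpow_inv_natCast_pow (inv_pos.mpr hNpos).le hn0
  have hmem : t • (u • x) ∈ normLeOne F := by
    refine ⟨smul_mem_of_mem hu htpos.ne', ?_⟩
    change mixedEmbedding.norm (t • (u • x)) ≤ 1
    rw [mixedEmbedding.norm_smul, norm_unit_smul, hN, abs_of_pos htpos, ← hn, htn,
      inv_mul_cancel₀ hNpos.ne']
  have h1 : t * ‖u • x‖ ≤ D := by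
    have h2 := hB _ hmem
    rw [_root_.norm_smul, Real.norm_of_nonneg htpos.le] at h2
    exact h2.trans (le_max_left _ _)
  have h3 : u • x = mixedEmbedding F ((u : F) * α) := by
    rw [unitSMul_smul, map_mul]
  have h4 : t * house ((u : F) * α) ≤ D := by
    refine le_trans ?_ h1
    rw [h3]
    exact mul_le_mul_of_nonneg_left (house_le _) htpos.le
  have h5 : (t * house ((u : F) * α)) ^ n ≤ D ^ n :=
    pow_le_pow_left₀ (mul_nonneg htpos.le (house_nonneg _)) h4 n
  rw [mul_pow, htn, inv_mul_le_iff₀ hNpos] at h5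
  rw [mul_comm (D ^ n)]
  exact h5

end Pool.Agent.Helper69.RS
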