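import Pool.Agent.Helper36.RS.Goals

/-!
# Project RF, existence part, packet JS: joint smoothness in `(t, x)`
-/

set_option autoImplicit false

namespace Pool.Agent.Helper69.RS

open Set Filter Topology Pool.Agent.Helper47.RF Pool.Agent.Helper36.RS
open scoped ContDiff

/-- imaginary components of a quaternion -/
noncomputable def imc (i : Fin 3) : HH →L[ℝ] ℝ :=
  LinearMap.toContinuousLinearMap
    ({ toFun := fun q : HH => (![q.imI, q.imJ, q.imK] : Fin 3 → ℝ) i
       map_add' := fun x y => by fin_cases i <;> rfl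
       map_smul' := fun c x => by fin_cases i <;> rfl } : HH →ₗ[ℝ] ℝ)

theorem imc_apply (i : Fin 3) (q : HH) : imc i q = (![q.imI, q.imJ, q.imK] : Fin 3 → ℝ) i := rfl

/-- `v ↦ im_i (x⁻¹ v)` -/
noncomputable def cfi (i : Fin 3) (x : HH) : HH →L[ℝ] ℝ :=
  (imc i).comp (ContinuousLinearMap.mul ℝ HH x⁻¹)

theorem cfi_apply (i : Fin 3) (x v : HH) : cfi i x v = imc i (x⁻¹ * v) := rfl

theorem contDiffOn_invHH {n : WithTop ℕ∞} : ContDiffOn ℝ n (fun x : HH => x⁻¹) {0}ᶜ := by
  intro x hx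
  have h := contDiffAt_ringInverse ℝ (n := n) (Units.mk0 x hx)
  simp only [Ring.inverse_eq_inv'] at h
  exact h.contDiffWithinAt

theorem cfi_contDiffOn {n : WithTop ℕ∞} (i : Fin 3) : ContDiffOn ℝ n (cfi i) {0}ᶜ := by
  have h1 : ContDiffOn ℝ n (fun x : HH => ContinuousLinearMap.mul ℝ HH x⁻¹) {0}ᶜ :=
    (ContinuousLinearMap.mul ℝ HH).contDiff.comp_contDiffOn contDiffOn_invHH
  exact contDiffOn_const.clm_comp h1

theorem euler {f : HH → ℝ} (hf : Sm f) {x : HH} (hx : x ≠ 0) : fderiv ℝ f x x = 0 := by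
  have h1 : HasDerivAt (fun r : ℝ => r • x) x 1 := by
    simpa using (hasDerivAt_id (1 : ℝ)).smul_const x
  have hd : HasFDerivAt f (fderiv ℝ f x) ((1 : ℝ) • x) := by
    rw [one_smul]
    exact (hf.c1_differentiableAt hx).hasFDerivAt
  have h2 : HasDerivAt (fun r : ℝ => f (r • x)) (fderiv ℝ f x x) 1 := hd.comp_hasDerivAt 1 h1
  have h3 : (fun r : ℝ => f (r • x)) =ᶠ[𝓝 1] fun _ => f x := by
    filter_upwards [lt_mem_nhds (zero_lt_one (α := ℝ))] with r hr
    exact hf.hom r x hr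
  exact (h2.congr_of_eventuallyEq h3.symm).unique (hasDerivAt_const 1 (f x))

theorem quat_dec (u : HH) : u = u.re • (1 : HH) + ∑ i, imc i u • qe i := by
  rw [Fin.sum_univ_three]
  obtain ⟨a, b, c, d⟩ := u
  apply QuaternionAlgebra.ext
  · change a = a * 1 + (b * 0 + c * 0 + d * 0)
    ring
  · change b = a * 0 + (b * 1 + c * 0 + d * 0)
    ring
  · change c = a * 0 + (b * 0 + c * 1 + d * 0)
    ring
  · change d = a * 0 + (b * 0 + c * 0 + d * 1)
    ring

theorem fderiv_formula {f : HH → ℝ} (hf : Sm f) {x : HH} (hx : x ≠ 0) (v : HH) :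
    fderiv ℝ f x v = ∑ i, cfi i x v * E i f x := by
  have h1 : v = x * (x⁻¹ * v) := by rw [← mul_assoc, mul_inv_cancel₀ hx, one_mul]
  have h2 : x * (x⁻¹ * v) = (x⁻¹ * v).re • x + ∑ i, cfi i x v • (x * qe i) := by
    conv_lhs => rw [quat_dec (x⁻¹ * v)]
    rw [mul_add, mul_smul_comm, mul_one, Finset.mul_sum]
    congr 1
    exact Finset.sum_congr rfl fun i _ => by rw [mul_smul_comm]; rfl
  have h3 : fderiv ℝ f x v = fderiv ℝ f x ((x⁻¹ * v).re • x + ∑ i, cfi i x v • (x * qe i)) := by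
    rw [← h2, ← h1]
  rw [h3, map_add, map_smul, euler hf hx, smul_zero, zero_add, map_sum]
  exact Finset.sum_congr rfl fun i _ => by rw [map_smul]; rfl

theorem hasFDerivAt_formula {f : HH → ℝ} (hf : Sm f) {x : HH} (hx : x ≠ 0) :
    HasFDerivAt f (∑ i, E i f x • cfi i x) x := by
  have h : fderiv ℝ f x = ∑ i, E i f x • cfi i x := by
    ext v
    rw [fderiv_formula hf hx v, _root_.sum_apply]
    exact Finset.sum_congr rfl fun i _ => by
      rw [_root_.smul_apply, smul_eq_mul, mul_comm]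
  rw [← h]
  exact (hf.c1_differentiableAt hx).hasFDerivAt

/-- the joint derivative -/
noncomputable def LL (f f' : ℝ → XS) (p : ℝ × HH) : ℝ × HH →L[ℝ] ℝ :=
  (f' p.1).1 p.2 • ContinuousLinearMap.fst ℝ ℝ HH
    + ∑ i, (Ed i (f p.1)).1 p.2 • (cfi i p.2).comp (ContinuousLinearMap.snd ℝ ℝ HH)

theorem isOpen_set (a b : ℝ) : IsOpen (Ioo a b ×ˢ ({0}ᶜ : Set HH)) :=
  isOpen_Ioo.prod isOpen_compl_singleton

theorem hasFDerivAt_joint {a b : ℝ} {f f' : ℝ → XS}
    (hc' : ContinuousOn (fun p : ℝ × HH => (f' p.1).1 p.2) (Ioo a b ×ˢ {0}ᶜ))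
    (hcE : ∀ i, ContinuousOn (fun p : ℝ × HH => (Ed i (f p.1)).1 p.2) (Ioo a b ×ˢ {0}ᶜ))
    (hd : ∀ x ≠ 0, ∀ t ∈ Ioo a b, HasDerivAt (fun s => (f s).1 x) ((f' t).1 x) t)
    {p : ℝ × HH} (hp : p ∈ Ioo a b ×ˢ ({0}ᶜ : Set HH)) :
    HasFDerivAt (fun p : ℝ × HH => (f p.1).1 p.2) (LL f f' p) p := by
  have hop := isOpen_set a b
  have hnh := hop.mem_nhds hp
  let F : ℝ → HH → ℝ := fun t x => (f t).1 x
  let f₁ : ℝ → HH → ℝ →L[ℝ] ℝ := fun t x => ContinuousLinearMap.toSpanSingleton ℝ ((f' t).1 x)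
  let f₂ : ℝ → HH → HH →L[ℝ] ℝ := fun t x => ∑ i, E i (f t).1 x • cfi i x
  have h1 : ∀ᶠ v in 𝓝 p, HasFDerivAt (fun s => F s v.2) (f₁ v.1 v.2) v.1 := by
    filter_upwards [hnh] with v hv
    exact (hd v.2 hv.2 v.1 hv.1).hasFDerivAt
  have h2 : ∀ᶠ v in 𝓝 p, HasFDerivAt (F v.1) (f₂ v.1 v.2) v.2 := by
    filter_upwards [hnh] with v hv
    exact hasFDerivAt_formula (f v.1).2 hv.2
  have h3 : ContinuousAt (fun v : ℝ × HH => f₁ v.1 v.2) p := by
    have : ContinuousAt (fun v : ℝ × HH => (f' v.1).1 v.2 • (1 : ℝ →L[ℝ] ℝ)) p :=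
      (hc'.continuousAt hnh).smul continuousAt_const
    refine this.congr (Eventually.of_forall fun v => ?_)
    ext
    simp [f₁]
  have h4 : ContinuousAt (fun v : ℝ × HH => f₂ v.1 v.2) p := by
    refine tendsto_finsetSum _ fun i _ => ?_
    refine Tendsto.smul ((hcE i).continuousAt hnh) ?_
    have : ContinuousAt (cfi i) p.2 :=
      ((cfi_contDiffOn (n := 0) i).continuousOn).continuousAt
        (isOpen_compl_singleton.mem_nhds hp.2)
    exact this.comp continuousAt_snd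
  have h5 := (hasStrictFDerivAt_uncurry_coprod (f := F) (f₁ := f₁) (f₂ := f₂) (u := p)
    h1 h2 h3 h4).hasFDerivAt
  refine h5.congr_fderiv ?_
  ext v
  · change (f₁ p.1 p.2) 1 + (f₂ p.1 p.2) 0 = _
    simp [f₁, LL]
  · change (f₁ p.1 p.2) 0 + (f₂ p.1 p.2) v = _
    simp only [map_zero, zero_add, f₂, LL, ContinuousLinearMap.comp_apply,
      _root_.add_apply, _root_.sum_apply, _root_.smul_apply, smul_eq_mul, ContinuousLinearMap.inr_apply,
      ContinuousLinearMap.coe_fst', ContinuousLinearMap.coe_snd', mul_zero]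
    rfl

/-- Packet JS. -/
theorem js : G_JS := by
  intro a b P h0 hE hD
  have key : ∀ n : ℕ, ∀ f ∈ P,
      ContDiffOn ℝ n (fun p : ℝ × HH => (f p.1).1 p.2) (Ioo a b ×ˢ {0}ᶜ) := by
    intro n
    induction n with
    | zero =>
      intro f hf
      exact contDiffOn_zero.2 (h0 f hf)
    | succ n ih =>
      intro f hf
      obtain ⟨f', hf', hd⟩ := hD f hf
      have hfd : ∀ p ∈ Ioo a b ×ˢ ({0}ᶜ : Set HH),
          HasFDerivAt (fun p : ℝ × HH => (f p.1).1 p.2) (LL f f' p) p := fun p hp =>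
        hasFDerivAt_joint (h0 f' hf') (fun i => h0 _ (hE f hf i)) hd hp
      have hcast : ((n + 1 : ℕ) : WithTop ℕ∞) = (n : WithTop ℕ∞) + 1 := by push_cast; rfl
      rw [hcast, contDiffOn_succ_iff_fderiv_of_isOpen (isOpen_set a b)]
      refine ⟨fun p hp => (hfd p hp).differentiableAt.differentiableWithinAt, fun h => ?_, ?_⟩
      · exact absurd h (by simp)
      · have hL : ContDiffOn ℝ n (LL f f') (Ioo a b ×ˢ {0}ᶜ) := by
          rw [contDiffOn_clm_apply]
          intro y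
          have e : (fun p => LL f f' p y) = fun p : ℝ × HH => (f' p.1).1 p.2 * y.1
              + ∑ i, (Ed i (f p.1)).1 p.2 * cfi i p.2 y.2 := by
            funext p
            simp only [LL, _root_.add_apply, _root_.sum_apply, _root_.smul_apply, smul_eq_mul,
              ContinuousLinearMap.coe_fst', ContinuousLinearMap.comp_apply,
              ContinuousLinearMap.coe_snd']
          rw [e]
          refine ContDiffOn.add ((ih f' hf').mul contDiffOn_const) ?_
          refine ContDiffOn.sum fun i _ => ?_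
          refine ContDiffOn.mul (ih _ (hE f hf i)) ?_
          have h1 : ContDiffOn ℝ n (fun p : ℝ × HH => cfi i p.2) (Ioo a b ×ˢ {0}ᶜ) :=
            (cfi_contDiffOn i).comp contDiff_snd.contDiffOn fun p hp => hp.2
          exact h1.clm_apply contDiffOn_const
        exact hL.congr fun p hp => (hfd p hp).fderiv
  intro f hf
  exact contDiffOn_infty.2 fun n => key n f hf

end Pool.Agent.Helper69.RS
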